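import Mathlib
import Pool.Agent.H26.Z12.SortedFlip
import Pool.Agent.H28.Z12.Good2
import Pool.Agent.H17.Z12.Glue8

/-!
Rows of the table of excluded patterns from two sorted refutations (MP_1e71f9_co).
-/

set_option autoImplicit false

namespace Pool.Agent.H34.Z12

open Pool.Agent.H77.Z12 Pool.Agent.H28.Z12 Pool.Agent.H13.Z12 Pool.Agent.H28.Z12.Cov
open Pool.Agent.H26.Z12 Pool.Agent.H32.Z12

/-- The condition on a row: pattern `(m, w)` of the table, blocks `p, q`, the two refuted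
patterns `(x1, y1)`, `(x0, y0)` with the frame masks `e1`, `e0`. -/
noncomputable def srtC (m w p q x1 y1 e1 x0 y0 e0 : ℕ) : Bool :=
  Nat.beq x1 (Nat.lor m (2 ^ 36)) && Nat.beq y1 (Nat.lor w (2 ^ 36)) &&
  Nat.beq x0 (Nat.lor m (2 ^ 36)) && Nat.beq y0 w && Nat.blt m (2 ^ 36) && Nat.blt w (2 ^ 36) &&
  decide (Inv p q m w) && decide (SortOK (blk p) (blk q) 0 1 0 5) &&
  subE (zL Z29 e1 V29) p q 0 1 0 5 && subE (zL Z29 e0 V29) p q 0 1 0 5

theorem good2_of_srt {m w p q x1 y1 e1 x0 y0 e0 : ℕ}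
    (h1 : RRefX x1 y1 (zL Z29 e1 V29) 0 0) (h0 : RRefX x0 y0 (zL Z29 e0 V29) 0 0)
    (h : srtC m w p q x1 y1 e1 x0 y0 e0 = true) : Good2 m w := by
  simp only [srtC, Bool.and_eq_true, decide_eq_true_eq] at h
  obtain ⟨⟨⟨⟨⟨⟨⟨⟨⟨a1, a2⟩, a3⟩, a4⟩, a5⟩, a6⟩, a7⟩, a8⟩, a9⟩, a10⟩ := h
  have b1 := Nat.eq_of_beq_eq_true a1
  have b2 := Nat.eq_of_beq_eq_true a2
  have b3 := Nat.eq_of_beq_eq_true a3
  have b4 := Nat.eq_of_beq_eq_true a4
  subst b1 b2 b3 b4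
  have h5 : m < 2 ^ 36 := by simpa [Nat.blt] using a5
  have h6 : y0 < 2 ^ 36 := by simpa [Nat.blt] using a6
  exact good_of_sorted_both h1 h0 (by decide) (by decide) h5 h6 a7 a8 a9 a10

/-- A row from two blocks. -/
theorem row {P k PA EA nA i PB EB nB j : ℕ} (p q : ℕ)
    (hA : ∀ i < nA, RRefX (ngM PA i) (ngV PA i) (zL Z29 (eT EA i) V29) 0 0)
    (hB : ∀ i < nB, RRefX (ngM PB i) (ngV PB i) (zL Z29 (eT EB i) V29) 0 0)
    (h : (Nat.blt i nA && Nat.blt j nB && srtC (ngM P k) (ngV P k) p q (ngM PA i) (ngV PA i)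
      (eT EA i) (ngM PB j) (ngV PB j) (eT EB j)) = true) : Good2 (ngM P k) (ngV P k) := by
  rw [Bool.and_eq_true, Bool.and_eq_true] at h
  obtain ⟨⟨h1, h2⟩, h3⟩ := h
  exact good2_of_srt (hA i (by simpa [Nat.blt] using h1)) (hB j (by simpa [Nat.blt] using h2)) h3

theorem tab_zero {P : ℕ} : ∀ i < 0, Good2 (ngM P i) (ngV P i) :=
  fun i hi => absurd hi (Nat.not_lt_zero i)

theorem tab_succ {P n : ℕ} (h : ∀ i < n, Good2 (ngM P i) (ngV P i))
    (h' : Good2 (ngM P n) (ngV P n)) : ∀ i < n + 1, Good2 (ngM P i) (ngV P i) := by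
  intro i hi
  rcases Nat.lt_succ_iff_lt_or_eq.1 hi with hi | rfl
  · exact h i hi
  · exact h'

end Pool.Agent.H34.Z12
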